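import Pool.Agent.Lib.MP_5eb8b0_lc.Crit

/-!
# A necessary and sufficient condition for a nontrivial extended Goppa code to be cyclic
-/

set_option autoImplicit false

namespace Pool.Agent.Results.MP_5eb8b0_lc.Criterion

open Polynomial ExtGoppa

/-- Let `F = GF(q)`, `K = GF(q^m)`, let `G` have degree `r ≥ 1` and no zero in `L`, and let the extended Goppa code be
nontrivial. It is cyclic if and only if there are an `F`-linear map `M` of `K^r` and `b ∈ K^r` for which the partial sums
`s_k = b + M b + ... + M^(k-1) b` satisfy `s_(n+1) = 0`, `n = |L|`, and `{s_0, ..., s_n}` is the set which consists of `0`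
and the vectors `(1, a, ..., a^(r-1)) / G(a)`, `a ∈ L`. -/
theorem result (F K : Type) [Field F] [Finite F] [Field K] [Finite K] [Algebra F K] (G : K[X]) (L : Finset K)
    (hG : 1 ≤ G.natDegree) (hL : ∀ a ∈ L, G.eval a ≠ 0) (hn : Nontriv (extGoppa F G L)) :
    IsCyclicCode (extGoppa F G L) ↔
      ∃ (M : (Fin G.natDegree → K) →ₗ[F] (Fin G.natDegree → K)) (b : Fin G.natDegree → K),
        ∑ i ∈ Finset.range (L.card + 1), (M ^ i) b = 0 ∧
        {v : Fin G.natDegree → K | v = 0 ∨ ∃ a ∈ L, v = fun i : Fin G.natDegree => a ^ (i : ℕ) / G.eval a} =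
          {v | ∃ k ≤ L.card, v = ∑ i ∈ Finset.range k, (M ^ i) b} := by
  have h1 := mem_extGoppa_iff (F := F) hG hL
  have h2 := cyc_iff (extGoppa F G L) (col G) none rfl h1 (col_inj _ _ h1 hn.2)
  rw [h2]
  have hcard : Fintype.card (Option L) = L.card + 1 := by
    rw [Fintype.card_option, Fintype.card_coe]
  have hset : Set.range (col G (L := L)) =
      {v : Fin G.natDegree → K | v = 0 ∨ ∃ a ∈ L, v = fun i : Fin G.natDegree => a ^ (i : ℕ) / G.eval a} := by
    ext v
    constructor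
    · rintro ⟨_ | ⟨a, ha⟩, rfl⟩
      · exact Or.inl rfl
      · exact Or.inr ⟨a, ha, rfl⟩
    · rintro (rfl | ⟨a, ha, rfl⟩)
      · exact ⟨none, rfl⟩
      · exact ⟨some ⟨a, ha⟩, rfl⟩
  refine exists_congr fun M => exists_congr fun b => ?_
  have hset' : ((fun k => ∑ i ∈ Finset.range k, (M ^ i) b) '' Set.Iio (L.card + 1)) =
      {v | ∃ k ≤ L.card, v = ∑ i ∈ Finset.range k, (M ^ i) b} := by
    ext v
    constructor
    · rintro ⟨k, hk, rfl⟩
      exact ⟨k, Nat.lt_succ_iff.1 hk, rfl⟩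
    · rintro ⟨k, hk, rfl⟩
      exact ⟨k, Nat.lt_succ_iff.2 hk, rfl⟩
  rw [hcard, hset, hset']

end Pool.Agent.Results.MP_5eb8b0_lc.Criterion
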