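import Pool.Agent.Lib.MP_5eb8b0_lc.Univ

/-!
# The nontrivial codes which are extended Goppa codes with `deg G = 1`
-/

set_option autoImplicit false

namespace Pool.Agent.Results.MP_5eb8b0_lc.DegreeOne

open Polynomial ExtGoppa

/-- Let `F = GF(q)`, `K = GF(q^m)`, and let `C` be a code over `F` (coordinates indexed by the finite set `P`) of dimension
at least `2` and minimum distance at least `3`. Then `C` is, up to a renaming of the coordinates, an extended Goppa code
with `G` of degree one over `K` and `L ⊆ K`, if and only if all words of `C` have coordinate sum zero and the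
redundancy `|P| - dim C` is at most `m + 1`. -/
theorem result (F K : Type) [Field F] [Finite F] [Field K] [Finite K] [Algebra F K] (P : Type) [Fintype P]
    (C : Submodule F (P → F)) (hC : Nontriv C) :
    (∃ (G : K[X]) (L : Finset K), G.natDegree = 1 ∧ (∀ a ∈ L, G.eval a ≠ 0) ∧
      ∃ e : P ≃ Option L, ∀ c, c ∈ C ↔ (fun p => c (e.symm p)) ∈ extGoppa F G L) ↔
    (∀ c ∈ C, ∑ p, c p = 0) ∧ Fintype.card P ≤ Module.finrank F C + Module.finrank F K + 1 := by
  have : FiniteDimensional F K := Module.Finite.of_finite
  exact univ_iff C hC

end Pool.Agent.Results.MP_5eb8b0_lc.DegreeOne
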